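import Pool.Agent.H86.ZN.Final

/-!
# Project ZN: the recursion outside small neighbourhoods of the break points

`bk k = (k/(k+1))^(k(k+1))` are the break points, `bk 0 = 1`, `bk 1 = 1/4`, `bk k ≤ 2^(-(k+1))`; zone `k` is `(bk (k+1), bk k)` (cut at `3/4` for `k = 0`).
-/

set_option autoImplicit false

namespace Pool.Agent.H14.ZN

open Finset Pool.Agent.H14RC Pool.Agent.H86.FM Pool.Agent.H86.ZN

/-- The exact recursion for `F m` at `x`, with quasi-cubes of dimension `K + 1`. -/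
def Rec (m K : ℕ) (x : ℝ) : Prop :=
  (∃ p i : ℕ, 1 ≤ p ∧ i ≤ K ∧ (p : ℝ) ^ (K + 1 - i) * ((p : ℝ) + 1) ^ i ≤ (m : ℝ) ^ (K + 1) * x ∧
    (m : ℝ) ^ (K + 1) * x < (p : ℝ) ^ (K - i) * ((p : ℝ) + 1) ^ (i + 1)) ∧
  ∀ p i : ℕ, i ≤ K → (p : ℝ) ^ (K + 1 - i) * ((p : ℝ) + 1) ^ i ≤ (m : ℝ) ^ (K + 1) * x →
    (m : ℝ) ^ (K + 1) * x ≤ (p : ℝ) ^ (K - i) * ((p : ℝ) + 1) ^ (i + 1) →
    F m x = (((K : ℝ) + 1 - i) * (p : ℝ) ^ (K - i) * ((p : ℝ) + 1) ^ i +
        i * (p : ℝ) ^ (K + 1 - i) * ((p : ℝ) + 1) ^ (i - 1)) / (m : ℝ) ^ K +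
      F m (m * x - (p : ℝ) ^ (K + 1 - i) * ((p : ℝ) + 1) ^ i / (m : ℝ) ^ K) / m

noncomputable def bk (k : ℕ) : ℝ := ((k : ℝ) / ((k : ℝ) + 1)) ^ (k * (k + 1))

theorem bk_zero : bk 0 = 1 := by
  unfold bk
  simp

theorem bk_one : bk 1 = 1 / 4 := by
  unfold bk
  norm_num

theorem bk_pos {k : ℕ} (hk : 1 ≤ k) : 0 < bk k := by
  unfold bk
  have : (0 : ℝ) < k := by exact_mod_cast hk
  positivity

theorem bk_succ (k : ℕ) : bk (k + 1) = (((k : ℝ) + 1) / ((k : ℝ) + 2)) ^ ((k + 1) * (k + 2)) := by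
  unfold bk
  push_cast
  have e : (k : ℝ) + 1 + 1 = (k : ℝ) + 2 := by ring
  rw [e]

theorem bk_le {k : ℕ} (hk : 1 ≤ k) : bk k ≤ (1 / 2) ^ (k + 1) := by
  have h1 : bk k = upR k ^ (k + 1) := by
    unfold bk upR
    rw [← pow_mul]
  rw [h1]
  have h2 : 0 ≤ upR k := ((loR_pos k).trans (loR_lt_upR k k)).le
  exact pow_le_pow_left₀ h2 (upR_le hk) _

theorem exists_zone {x : ℝ} (hx0 : 0 < x) (hx1 : x ≤ 1) : ∃ k : ℕ, bk (k + 1) ≤ x ∧ x ≤ bk k := by
  classical
  have hex : ∃ k : ℕ, bk (k + 1) ≤ x := by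
    obtain ⟨n, hn⟩ := exists_pow_lt_of_lt_one hx0 (by norm_num : (1 / 2 : ℝ) < 1)
    refine ⟨n, (bk_le (by omega)).trans (le_trans ?_ hn.le)⟩
    exact pow_le_pow_of_le_one (by norm_num) (by norm_num) (by omega)
  refine ⟨Nat.find hex, Nat.find_spec hex, ?_⟩
  rcases Nat.eq_zero_or_pos (Nat.find hex) with h | h
  · rw [h, bk_zero]
    exact hx1
  · have h2 := Nat.find_min hex (m := Nat.find hex - 1) (by omega)
    rw [not_le, show Nat.find hex - 1 + 1 = Nat.find hex by omega] at h2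
    exact h2.le

/-- One zone, with distance `ε` from its ends. -/
theorem rec_zone (K : ℕ) {ε : ℝ} (hε : 0 < ε) : ∃ M : ℕ, ∀ m : ℕ, M ≤ m → ∀ x : ℝ, bk (K + 1) + ε ≤ x →
    x ≤ bk K - ε → x ≤ 1 / 2 → Rec m K x := by
  obtain ⟨M, hM⟩ := final K (α := bk (K + 1) + ε) (β := min (bk K - ε) (1 / 2))
    (by rw [← bk_succ]; linarith)
    (lt_of_le_of_lt (min_le_left _ _) (by unfold bk; linarith))
    (lt_of_le_of_lt (min_le_right _ _) (by norm_num))
  exact ⟨M, fun m hm x h1 h2 h3 => hM m hm x h1 (le_min h2 h3)⟩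

/-- The recursion holds for large `m` at all points of `[ε, 1/2]` with distance at least `ε` from the break points. -/
theorem cover {ε : ℝ} (hε : 0 < ε) : ∃ M : ℕ, ∀ m : ℕ, M ≤ m → ∀ x : ℝ, ε ≤ x → x ≤ 1 / 2 →
    (∀ k : ℕ, 1 ≤ k → ε ≤ |x - bk k|) → ∃ K : ℕ, bk (K + 1) < x ∧ x < bk K ∧ Rec m K x := by
  classical
  obtain ⟨ε', hε'⟩ : ∃ ε', ε' = min ε (1 / 2) := ⟨_, rfl⟩
  have hε0 : 0 < ε' := by rw [hε']; exact lt_min hε (by norm_num)
  have hle : ε' ≤ ε := by rw [hε']; exact min_le_left _ _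
  have hle2 : ε' ≤ 1 / 2 := by rw [hε']; exact min_le_right _ _
  obtain ⟨n, hn⟩ := exists_pow_lt_of_lt_one hε (by norm_num : (1 / 2 : ℝ) < 1)
  choose M hM using fun K => rec_zone K hε0
  refine ⟨(range (n + 1)).sup M, fun m hm x hx0 hx1 hx => ?_⟩
  obtain ⟨K, hK0, hK1⟩ := exists_zone (x := x) (by linarith) (by linarith)
  have h1 := hx (K + 1) (by omega)
  have h2 : bk (K + 1) + ε ≤ x := by
    rw [abs_of_nonneg (by linarith)] at h1
    linarith
  have h3 : x ≤ bk K - ε' := by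
    rcases Nat.eq_zero_or_pos K with h | h
    · rw [h, bk_zero]
      linarith
    · have h4 := hx K h
      rw [abs_of_nonpos (by linarith)] at h4
      linarith
  have hKn : K ≤ n := by
    by_contra hcon
    push Not at hcon
    have h4 : bk K ≤ (1 / 2) ^ (K + 1) := bk_le (by omega)
    have h5 : (1 / 2 : ℝ) ^ (K + 1) ≤ (1 / 2) ^ n := pow_le_pow_of_le_one (by norm_num) (by norm_num) (by omega)
    linarith
  have hMK : M K ≤ m := (Finset.le_sup (f := M) (Finset.mem_range.2 (by omega))).trans hm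
  exact ⟨K, by linarith, by linarith, hM K m hMK x (by linarith) h3 hx1⟩

/-- The measure form: for large `m` the recursion fails only on a set of small measure. -/
theorem cover_measure {δ : ℝ} (hδ : 0 < δ) : ∃ M : ℕ, ∀ m : ℕ, M ≤ m →
    MeasureTheory.volume {x : ℝ | 0 ≤ x ∧ x ≤ 1 ∧ ∀ K : ℕ, ¬ Rec m K (min x (1 - x))} ≤ ENNReal.ofReal δ := by
  classical
  obtain ⟨n, hn⟩ := exists_pow_lt_of_lt_one (by linarith : 0 < δ / 16) (by norm_num : (1 / 2 : ℝ) < 1)
  have hn0 : (0 : ℝ) ≤ n := Nat.cast_nonneg n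
  obtain ⟨ε, hε⟩ : ∃ ε, ε = δ / (16 * ((n : ℝ) + 1)) := ⟨_, rfl⟩
  have hε0 : 0 < ε := by rw [hε]; positivity
  have hε1 : ε * (n + 1) = δ / 16 := by
    rw [hε]
    field_simp
  have hε2 : ε ≤ δ / 16 := by nlinarith
  obtain ⟨M, hM⟩ := cover hε0
  refine ⟨M, fun m hm => ?_⟩
  have hsub : {x : ℝ | 0 ≤ x ∧ x ≤ 1 ∧ ∀ K : ℕ, ¬ Rec m K (min x (1 - x))} ⊆
      (Set.Icc 0 (δ / 8) ∪ Set.Icc (1 - δ / 8) 1) ∪
        ⋃ k ∈ range (n + 1), (Set.Icc (bk k - ε) (bk k + ε) ∪ Set.Icc (1 - bk k - ε) (1 - bk k + ε)) := by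
    intro x hx
    obtain ⟨hx0, hx1, hx2⟩ := hx
    by_contra hcon
    rw [Set.mem_union, Set.mem_union, not_or, not_or] at hcon
    obtain ⟨⟨c1, c2⟩, c3⟩ := hcon
    rw [Set.mem_Icc, not_and_or, not_le, not_le] at c1 c2
    have c1' : δ / 8 < x := c1.resolve_left (by linarith)
    have c2' : x < 1 - δ / 8 := c2.resolve_right (by linarith)
    have hy : ∀ k, k ≤ n → ε ≤ |min x (1 - x) - bk k| := by
      intro k hk
      by_contra hlt
      push Not at hlt
      apply c3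
      rw [Set.mem_iUnion₂]
      refine ⟨k, Finset.mem_range.2 (by omega), ?_⟩
      rw [abs_lt] at hlt
      rcases le_total x (1 - x) with h | h
      · rw [min_eq_left h] at hlt
        left
        exact ⟨by linarith, by linarith⟩
      · rw [min_eq_right h] at hlt
        right
        exact ⟨by linarith, by linarith⟩
    have hmin0 : δ / 8 < min x (1 - x) := lt_min c1' (by linarith)
    obtain ⟨K, -, -, hK⟩ := hM m hm (min x (1 - x)) (by linarith)
      (by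
        rcases le_total x (1 - x) with h | h
        · rw [min_eq_left h]; linarith
        · rw [min_eq_right h]; linarith)
      (by
        intro k hk
        rcases le_or_gt k n with h | h
        · exact hy k h
        · have h4 := bk_le hk
          have h5 : (1 / 2 : ℝ) ^ (k + 1) ≤ (1 / 2) ^ n := pow_le_pow_of_le_one (by norm_num) (by norm_num) (by omega)
          have h6 := le_abs_self (min x (1 - x) - bk k)
          linarith)
    exact hx2 K hK
  refine (MeasureTheory.measure_mono hsub).trans ?_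
  refine (MeasureTheory.measure_union_le _ _).trans ?_
  have hI : MeasureTheory.volume (Set.Icc (0 : ℝ) (δ / 8) ∪ Set.Icc (1 - δ / 8) 1) ≤ ENNReal.ofReal (δ / 4) := by
    refine (MeasureTheory.measure_union_le _ _).trans ?_
    rw [Real.volume_Icc, Real.volume_Icc, ← ENNReal.ofReal_add (by linarith) (by linarith)]
    exact ENNReal.ofReal_le_ofReal (by linarith)
  have hU : MeasureTheory.volume (⋃ k ∈ range (n + 1),
      (Set.Icc (bk k - ε) (bk k + ε) ∪ Set.Icc (1 - bk k - ε) (1 - bk k + ε))) ≤ ENNReal.ofReal (δ / 4) := by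
    refine (MeasureTheory.measure_biUnion_finset_le _ _).trans ?_
    have hk : ∀ k ∈ range (n + 1), MeasureTheory.volume
        (Set.Icc (bk k - ε) (bk k + ε) ∪ Set.Icc (1 - bk k - ε) (1 - bk k + ε)) ≤ ENNReal.ofReal (4 * ε) := by
      intro k _
      refine (MeasureTheory.measure_union_le _ _).trans ?_
      rw [Real.volume_Icc, Real.volume_Icc, ← ENNReal.ofReal_add (by linarith) (by linarith)]
      exact ENNReal.ofReal_le_ofReal (by linarith)
    refine (Finset.sum_le_sum hk).trans ?_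
    rw [Finset.sum_const, Finset.card_range, nsmul_eq_mul]
    have h7 : (((n + 1 : ℕ) : ENNReal)) = ENNReal.ofReal ((n : ℝ) + 1) := by
      rw [← ENNReal.ofReal_natCast]
      push_cast
      rfl
    rw [h7, ← ENNReal.ofReal_mul (by linarith)]
    apply ENNReal.ofReal_le_ofReal
    nlinarith
  refine (add_le_add hI hU).trans ?_
  rw [← ENNReal.ofReal_add (by linarith) (by linarith)]
  exact ENNReal.ofReal_le_ofReal (by linarith)

end Pool.Agent.H14.ZN
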