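import Pool.Agent.H86.ZN.ZStep

/-!
# Project ZN: the final statement for `K ≥ 1`

`α = r1^(K+1)`, `β = r2^(K+1)` (`exists_root`), `s1` between `loR K` and `r1`, `s2` between `r2` and `upR K`; `zz_all`; `t = (K+1) p + i`, `Nk K t = p`, `p + 1 ≥ r1 m` and `p ≤ r2 m`,
so `s1 m ≤ p`, `p + 1 ≤ s2 m` for large `m`. `Link.ex` with `y = m (x - v) ∈ [0, w]`, `F v = v Sq` (`node_val`).
-/

set_option autoImplicit false

namespace Pool.Agent.H86.ZN

open Finset Pool.Agent.H14RC Pool.Agent.H86.FM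

theorem final_pos {K : ℕ} (hK : 1 ≤ K) {α β : ℝ} (h1 : loR K ^ (K + 1) < α) (h2 : β < upR K ^ (K + 1)) :
    ∃ M : ℕ, ∀ m : ℕ, M ≤ m → ∀ x : ℝ, α ≤ x → x ≤ β → ∀ p i : ℕ, i ≤ K →
      (p : ℝ) ^ (K + 1 - i) * ((p : ℝ) + 1) ^ i ≤ (m : ℝ) ^ (K + 1) * x →
      (m : ℝ) ^ (K + 1) * x ≤ (p : ℝ) ^ (K - i) * ((p : ℝ) + 1) ^ (i + 1) →
      F m x = (((K : ℝ) + 1 - i) * (p : ℝ) ^ (K - i) * ((p : ℝ) + 1) ^ i +
          i * (p : ℝ) ^ (K + 1 - i) * ((p : ℝ) + 1) ^ (i - 1)) / (m : ℝ) ^ K +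
        F m (m * x - (p : ℝ) ^ (K + 1 - i) * ((p : ℝ) + 1) ^ i / (m : ℝ) ^ K) / m := by
  rcases lt_or_ge β α with hαβ | hαβ
  · exact ⟨0, fun m _ x hx1 hx2 => absurd (hx1.trans hx2) (not_le.2 hαβ)⟩
  have hlo := loR_pos K
  have hα0 : 0 < α := lt_trans (by positivity) h1
  obtain ⟨r1, hr10, hr1⟩ := exists_root K hα0.le
  obtain ⟨r2, hr20, hr2⟩ := exists_root K (hα0.le.trans hαβ)
  have g1 : loR K < r1 := lt_of_pow_lt_pow_left₀ (K + 1) hr10 (by rw [hr1]; exact h1)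
  have hup0 : 0 ≤ upR K := (hlo.trans (loR_lt_upR K K)).le
  have g2 : r2 < upR K := lt_of_pow_lt_pow_left₀ (K + 1) hup0 (by rw [hr2]; exact h2)
  have g3 : r1 ≤ r2 := le_of_pow_le_pow_left₀ (n := K + 1) (by omega) hr20 (by rw [hr1, hr2]; exact hαβ)
  obtain ⟨s1, hs1⟩ : ∃ s, s = (loR K + r1) / 2 := ⟨_, rfl⟩
  obtain ⟨s2, hs2⟩ : ∃ s, s = (r2 + upR K) / 2 := ⟨_, rfl⟩
  obtain ⟨M1, hM1⟩ := zz_all K hK s1 s2 (by linarith) (by linarith) (by linarith)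
  obtain ⟨M2, hM2⟩ := node_val hK (by linarith : 0 < s1) ⟨M1, hM1⟩
  obtain ⟨M3, hM3⟩ := exists_nat_ge (1 / (r1 - s1))
  obtain ⟨M4, hM4⟩ := exists_nat_ge (1 / (s2 - r2))
  refine ⟨M1 + M2 + M3 + M4 + 2, fun m hm x hx1 hx2 p i hi hQ hQ' => ?_⟩
  have hm1 : 1 ≤ m := by omega
  have hm0 : (0 : ℝ) < m := by exact_mod_cast (by omega : 0 < m)
  have e1 : 1 ≤ (r1 - s1) * m := by
    have h4 : (M3 : ℝ) ≤ m := by exact_mod_cast (by omega : M3 ≤ m)
    have h5 := hM3.trans h4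
    rw [div_le_iff₀ (by linarith)] at h5
    linarith
  have e2 : 1 ≤ (s2 - r2) * m := by
    have h4 : (M4 : ℝ) ≤ m := by exact_mod_cast (by omega : M4 ≤ m)
    have h5 := hM4.trans h4
    rw [div_le_iff₀ (by linarith)] at h5
    linarith
  have hp0 : (0 : ℝ) ≤ p := Nat.cast_nonneg p
  -- the side `p`
  have q1 : r1 * m ≤ (p : ℝ) + 1 := by
    have h4 : (r1 * m) ^ (K + 1) ≤ ((p : ℝ) + 1) ^ (K + 1) := by
      have h5 : (r1 * m) ^ (K + 1) = (m : ℝ) ^ (K + 1) * α := by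
        rw [mul_pow, hr1]
        ring
      have h6 : (m : ℝ) ^ (K + 1) * α ≤ (m : ℝ) ^ (K + 1) * x := mul_le_mul_of_nonneg_left hx1 (by positivity)
      have h7 : (p : ℝ) ^ (K - i) * ((p : ℝ) + 1) ^ (i + 1) ≤ ((p : ℝ) + 1) ^ (K - i) * ((p : ℝ) + 1) ^ (i + 1) :=
        mul_le_mul_of_nonneg_right (pow_le_pow_left₀ hp0 (by linarith) _) (by positivity)
      rw [← pow_add, show K - i + (i + 1) = K + 1 by omega] at h7
      rw [h5]
      linarith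
    exact le_of_pow_le_pow_left₀ (by omega) (by positivity) h4
  have q2 : (p : ℝ) ≤ r2 * m := by
    have h4 : (p : ℝ) ^ (K + 1) ≤ (r2 * m) ^ (K + 1) := by
      have h5 : (r2 * m) ^ (K + 1) = (m : ℝ) ^ (K + 1) * β := by
        rw [mul_pow, hr2]
        ring
      have h6 : (m : ℝ) ^ (K + 1) * x ≤ (m : ℝ) ^ (K + 1) * β := mul_le_mul_of_nonneg_left hx2 (by positivity)
      have h7 : (p : ℝ) ^ (K + 1 - i) * (p : ℝ) ^ i ≤ (p : ℝ) ^ (K + 1 - i) * ((p : ℝ) + 1) ^ i :=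
        mul_le_mul_of_nonneg_left (pow_le_pow_left₀ hp0 (by linarith) _) (by positivity)
      rw [← pow_add, show K + 1 - i + i = K + 1 by omega] at h7
      rw [h5]
      linarith
    exact le_of_pow_le_pow_left₀ (by omega) (by positivity) h4
  obtain ⟨t, ht⟩ : ∃ t, t = (K + 1) * p + i := ⟨_, rfl⟩
  have hdiv : t / (K + 1) = p := by
    rw [ht, Nat.mul_add_div (by omega : 0 < K + 1), Nat.div_eq_of_lt (by omega), add_zero]
  have hmod : t % (K + 1) = i := by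
    rw [ht, Nat.mul_add_mod, Nat.mod_eq_of_lt (by omega)]
  have hNk : Nk K t = p := hdiv
  have n1 : s1 * m ≤ (Nk K t : ℝ) := by
    rw [hNk]
    linarith
  have n2 : (Nk K t : ℝ) + 1 ≤ s2 * m := by
    rw [hNk]
    linarith
  obtain ⟨hl, -⟩ := hM1 m (by omega) t n1 n2
  obtain ⟨hv, -⟩ := hM2 m (by omega) t n1 n2
  have hp1 : 1 ≤ p := by
    have := hl.pos
    rwa [hNk] at this
  have hpR : (0 : ℝ) < p := by exact_mod_cast hp1
  have eQ : vq m (K + 1) t = (p : ℝ) ^ (K + 1 - i) * ((p : ℝ) + 1) ^ i / (m : ℝ) ^ (K + 1) := by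
    unfold vq qc
    rw [hdiv, hmod]
    push_cast
    ring
  have eQ' : vq m (K + 1) (t + 1) = (p : ℝ) ^ (K - i) * ((p : ℝ) + 1) ^ (i + 1) / (m : ℝ) ^ (K + 1) := by
    have h4 := hl.hv'
    have h5 := hl.hv
    rw [hNk] at h4 h5
    have h7 : vq m (K + 1) (t + 1) = ((p : ℝ) + 1) * vq m (K + 1) t / p := by
      have h8 : (m : ℝ) * vq m (K + 1) (t + 1) = m * (((p : ℝ) + 1) * vq m (K + 1) t / p) := by
        have h9 : (m : ℝ) * (((p : ℝ) + 1) * vq m (K + 1) t / p) = ((p : ℝ) + 1) * (m * vq m (K + 1) t) / p := by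
          ring
        rw [h9, h4, h5]
        field_simp
      exact mul_left_cancel₀ hm0.ne' h8
    have h9 : K + 1 - i = (K - i) + 1 := by omega
    rw [h7, eQ, h9]
    field_simp
    ring
  have hmK : (0 : ℝ) < (m : ℝ) ^ (K + 1) := by positivity
  have hv0 : vq m (K + 1) t ≤ x := by
    rw [eQ, div_le_iff₀ hmK]
    linarith
  have hv1 : x ≤ vq m (K + 1) (t + 1) := by
    rw [eQ', le_div_iff₀ hmK]
    linarith
  have hy0 : 0 ≤ m * (x - vq m (K + 1) t) := mul_nonneg hm0.le (by linarith)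
  have hy1 : m * (x - vq m (K + 1) t) ≤ wk m K t := by
    have h4 := hl.hv
    have h5 := hl.hv'
    have h6 : (m : ℝ) * x ≤ m * vq m (K + 1) (t + 1) := mul_le_mul_of_nonneg_left hv1 hm0.le
    rw [h5] at h6
    linarith
  have h4 := hl.ex _ hy0 hy1
  have h5 : vq m (K + 1) t + m * (x - vq m (K + 1) t) / m = x := by
    field_simp
    ring
  rw [h5, hv] at h4
  have h6 : (m : ℝ) * (x - vq m (K + 1) t) = m * x - (p : ℝ) ^ (K + 1 - i) * ((p : ℝ) + 1) ^ i / (m : ℝ) ^ K := by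
    rw [eQ]
    field_simp
    ring
  rw [h6] at h4
  rw [h4]
  congr 1
  rw [eQ]
  unfold Sq
  rw [hdiv, hmod, Nat.cast_sub (by omega : i ≤ K + 1)]
  have h9 : K + 1 - i = (K - i) + 1 := by omega
  push_cast
  rcases Nat.eq_zero_or_pos i with h0 | h0
  · subst h0
    simp only [Nat.cast_zero, sub_zero, pow_zero, mul_one, zero_mul, add_zero, Nat.sub_zero]
    field_simp
    ring
  · have h10 : (p + 1 : ℝ) ^ i = (p + 1 : ℝ) ^ (i - 1) * (p + 1) := by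
      rw [← pow_succ]
      congr 1
      omega
    rw [h9, h10]
    field_simp
    ring

end Pool.Agent.H86.ZN
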