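import Pool.Agent.H14.ZN.Cover

/-!
# Project ZN: the iterated recursion

For every `n` and `δ` and all large `m`: outside a set of measure at most `δ` the recursion can be applied `n` times, so `F m x = A + F m z / m ^ n` with an explicit `A`.
-/

set_option autoImplicit false

namespace Pool.Agent.H14.ZN

open Finset Pool.Agent.H14RC Pool.Agent.H86.FM Pool.Agent.H86.ZN

/-- One step of the recursion at `x`: `w = min x (1 - x)` lies in zone `K` and in the cell `(p, i)`; `v` is the explicit part, `y` the next point. -/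
def Step (m K : ℕ) (x v y : ℝ) : Prop :=
  bk (K + 1) < min x (1 - x) ∧ min x (1 - x) < bk K ∧ ∃ p i : ℕ, 1 ≤ p ∧ i ≤ K ∧
    (p : ℝ) ^ (K + 1 - i) * ((p : ℝ) + 1) ^ i ≤ (m : ℝ) ^ (K + 1) * min x (1 - x) ∧
    (m : ℝ) ^ (K + 1) * min x (1 - x) < (p : ℝ) ^ (K - i) * ((p : ℝ) + 1) ^ (i + 1) ∧
    v = (((K : ℝ) + 1 - i) * (p : ℝ) ^ (K - i) * ((p : ℝ) + 1) ^ i +
      i * (p : ℝ) ^ (K + 1 - i) * ((p : ℝ) + 1) ^ (i - 1)) / (m : ℝ) ^ K ∧
    y = m * min x (1 - x) - (p : ℝ) ^ (K + 1 - i) * ((p : ℝ) + 1) ^ i / (m : ℝ) ^ K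

/-- `n` steps: `A` is the explicit sum, `z` the last point. -/
def Steps (m : ℕ) : ℕ → ℝ → ℝ → ℝ → Prop
  | 0, x, A, z => A = 0 ∧ z = x
  | n + 1, x, A, z => ∃ (K : ℕ) (v y A' : ℝ), Step m K x v y ∧ Steps m n y A' z ∧ A = v + A' / m

/-- The recursion holds for `n` steps at `x`. -/
def Good (m n : ℕ) (x : ℝ) : Prop :=
  ∃ A z : ℝ, Steps m n x A z ∧ 0 ≤ z ∧ z ≤ 1 ∧ F m x = A + F m z / (m : ℝ) ^ n

theorem F_min {m : ℕ} (hm : 2 ≤ m) {x : ℝ} (h0 : 0 ≤ x) (h1 : x ≤ 1) : F m (min x (1 - x)) = F m x := by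
  rcases le_total x (1 - x) with h | h
  · rw [min_eq_left h]
  · rw [min_eq_right h]
    exact F_symm hm h0 h1

theorem step_of_rec {m K : ℕ} (hm : 2 ≤ m) {x : ℝ} (h0 : 0 ≤ x) (h1 : x ≤ 1) (hb : bk (K + 1) < min x (1 - x))
    (hb' : min x (1 - x) < bk K) (hR : Rec m K (min x (1 - x))) :
    ∃ v y : ℝ, Step m K x v y ∧ 0 ≤ y ∧ y ≤ 1 ∧ F m x = v + F m y / m ∧
      ∃ p i : ℕ, p ≤ m ∧ i ≤ K ∧ y = m * min x (1 - x) - (p : ℝ) ^ (K + 1 - i) * ((p : ℝ) + 1) ^ i / (m : ℝ) ^ K := by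
  obtain ⟨⟨p, i, hp, hi, hQ, hQ'⟩, hval⟩ := hR
  have hm0 : (0 : ℝ) < m := by exact_mod_cast (by omega : 0 < m)
  have hpR : (0 : ℝ) < p := by exact_mod_cast hp
  obtain ⟨w, hw⟩ : ∃ w, w = min x (1 - x) := ⟨_, rfl⟩
  rw [← hw] at hQ hQ' hval hb hb' ⊢
  have hw2 : w ≤ 1 / 2 := by
    rw [hw]
    rcases le_total x (1 - x) with h | h
    · rw [min_eq_left h]; linarith
    · rw [min_eq_right h]; linarith
  have hmK : (0 : ℝ) < (m : ℝ) ^ K := by positivity
  have hmK1 : (m : ℝ) ^ (K + 1) = (m : ℝ) ^ K * m := pow_succ _ _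
  -- `p < m`
  have hpm : p < m := by
    by_contra hcon
    push Not at hcon
    have h2 : (m : ℝ) ≤ p := by exact_mod_cast hcon
    have h3 : (m : ℝ) ^ (K + 1) ≤ (p : ℝ) ^ (K + 1) := pow_le_pow_left₀ hm0.le h2 _
    have h4 : (p : ℝ) ^ (K + 1) ≤ (p : ℝ) ^ (K + 1 - i) * ((p : ℝ) + 1) ^ i := by
      have h5 : (p : ℝ) ^ (K + 1 - i) * (p : ℝ) ^ i ≤ (p : ℝ) ^ (K + 1 - i) * ((p : ℝ) + 1) ^ i :=
        mul_le_mul_of_nonneg_left (pow_le_pow_left₀ hpR.le (by linarith) _) (by positivity)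
      rwa [← pow_add, show K + 1 - i + i = K + 1 by omega] at h5
    have h6 : (m : ℝ) ^ (K + 1) * w ≤ (m : ℝ) ^ (K + 1) * (1 / 2) := mul_le_mul_of_nonneg_left hw2 (by positivity)
    have h7 : (0 : ℝ) < (m : ℝ) ^ (K + 1) := by positivity
    linarith
  have hy0 : 0 ≤ m * w - (p : ℝ) ^ (K + 1 - i) * ((p : ℝ) + 1) ^ i / (m : ℝ) ^ K := by
    rw [sub_nonneg, div_le_iff₀ hmK]
    rw [hmK1] at hQ
    linarith
  have hy1 : m * w - (p : ℝ) ^ (K + 1 - i) * ((p : ℝ) + 1) ^ i / (m : ℝ) ^ K ≤ 1 := by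
    have h2 : (p : ℝ) ^ (K - i) * ((p : ℝ) + 1) ^ (i + 1) - (p : ℝ) ^ (K + 1 - i) * ((p : ℝ) + 1) ^ i =
        (p : ℝ) ^ (K - i) * ((p : ℝ) + 1) ^ i := by
      have h9 : K + 1 - i = (K - i) + 1 := by omega
      rw [h9]
      ring
    have h3 : (p : ℝ) ^ (K - i) * ((p : ℝ) + 1) ^ i ≤ (m : ℝ) ^ K := by
      have h4 : (p : ℝ) + 1 ≤ m := by exact_mod_cast hpm
      have h5 : (p : ℝ) ^ (K - i) ≤ (m : ℝ) ^ (K - i) := pow_le_pow_left₀ hpR.le (by linarith) _
      have h6 : ((p : ℝ) + 1) ^ i ≤ (m : ℝ) ^ i := pow_le_pow_left₀ (by linarith) h4 _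
      have h7 : (p : ℝ) ^ (K - i) * ((p : ℝ) + 1) ^ i ≤ (m : ℝ) ^ (K - i) * (m : ℝ) ^ i :=
        mul_le_mul h5 h6 (by positivity) (by positivity)
      rwa [← pow_add, show K - i + i = K by omega] at h7
    rw [sub_le_iff_le_add, ← sub_le_iff_le_add', le_div_iff₀ hmK]
    rw [hmK1] at hQ'
    nlinarith
  refine ⟨_, _, ⟨by rw [← hw]; exact hb, by rw [← hw]; exact hb', p, i, hp, hi, by rw [← hw]; exact hQ,
    by rw [← hw]; exact hQ', rfl, rfl⟩, ?_, ?_, ?_, p, i, hpm.le, hi, ?_⟩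
  · rw [← hw]; exact hy0
  · rw [← hw]; exact hy1
  · rw [← hw, ← F_min hm h0 h1, ← hw]
    exact hval p i hi hQ hQ'.le
  · rw [← hw]

/-- The measure form of `cover`, with a bound for the zone. -/
theorem cover_measure' {δ : ℝ} (hδ : 0 < δ) : ∃ n M : ℕ, ∀ m : ℕ, M ≤ m →
    MeasureTheory.volume {x : ℝ | 0 ≤ x ∧ x ≤ 1 ∧ ¬ ∃ K : ℕ, K ≤ n ∧ bk (K + 1) < min x (1 - x) ∧
      min x (1 - x) < bk K ∧ Rec m K (min x (1 - x))} ≤ ENNReal.ofReal δ := by
  classical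
  obtain ⟨n, hn⟩ := exists_pow_lt_of_lt_one (by linarith : 0 < δ / 16) (by norm_num : (1 / 2 : ℝ) < 1)
  have hn0 : (0 : ℝ) ≤ n := Nat.cast_nonneg n
  obtain ⟨ε, hε⟩ : ∃ ε, ε = δ / (16 * ((n : ℝ) + 1)) := ⟨_, rfl⟩
  have hε0 : 0 < ε := by rw [hε]; positivity
  have hε1 : ε * (n + 1) = δ / 16 := by
    rw [hε]
    field_simp
  have hε2 : ε ≤ δ / 16 := by nlinarith
  obtain ⟨M, hM⟩ := cover hε0
  refine ⟨n, M, fun m hm => ?_⟩
  have hsub : {x : ℝ | 0 ≤ x ∧ x ≤ 1 ∧ ¬ ∃ K : ℕ, K ≤ n ∧ bk (K + 1) < min x (1 - x) ∧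
      min x (1 - x) < bk K ∧ Rec m K (min x (1 - x))} ⊆
      (Set.Icc 0 (δ / 8) ∪ Set.Icc (1 - δ / 8) 1) ∪
        ⋃ k ∈ range (n + 1), (Set.Icc (bk k - ε) (bk k + ε) ∪ Set.Icc (1 - bk k - ε) (1 - bk k + ε)) := by
    intro x hx
    obtain ⟨hx0, hx1, hx2⟩ := hx
    by_contra hcon
    rw [Set.mem_union, Set.mem_union, not_or, not_or] at hcon
    obtain ⟨⟨c1, c2⟩, c3⟩ := hcon
    rw [Set.mem_Icc, not_and_or, not_le, not_le] at c1 c2
    have c1' : δ / 8 < x := c1.resolve_left (by linarith)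
    have c2' : x < 1 - δ / 8 := c2.resolve_right (by linarith)
    have hy : ∀ k, k ≤ n → ε ≤ |min x (1 - x) - bk k| := by
      intro k hk
      by_contra hlt
      push Not at hlt
      apply c3
      rw [Set.mem_iUnion₂]
      refine ⟨k, Finset.mem_range.2 (by omega), ?_⟩
      rw [abs_lt] at hlt
      rcases le_total x (1 - x) with h | h
      · rw [min_eq_left h] at hlt
        left
        exact ⟨by linarith, by linarith⟩
      · rw [min_eq_right h] at hlt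
        right
        exact ⟨by linarith, by linarith⟩
    have hmin0 : δ / 8 < min x (1 - x) := lt_min c1' (by linarith)
    obtain ⟨K, hK0, hK1, hK⟩ := hM m hm (min x (1 - x)) (by linarith)
      (by
        rcases le_total x (1 - x) with h | h
        · rw [min_eq_left h]; linarith
        · rw [min_eq_right h]; linarith)
      (by
        intro k hk
        rcases le_or_gt k n with h | h
        · exact hy k h
        · have h4 := bk_le hk
          have h5 : (1 / 2 : ℝ) ^ (k + 1) ≤ (1 / 2) ^ n := pow_le_pow_of_le_one (by norm_num) (by norm_num) (by omega)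
          have h6 := le_abs_self (min x (1 - x) - bk k)
          linarith)
    refine hx2 ⟨K, ?_, hK0, hK1, hK⟩
    by_contra hcon
    push Not at hcon
    have h4 := bk_le (k := K) (by omega)
    have h5 : (1 / 2 : ℝ) ^ (K + 1) ≤ (1 / 2) ^ n := pow_le_pow_of_le_one (by norm_num) (by norm_num) (by omega)
    linarith
  refine (MeasureTheory.measure_mono hsub).trans ?_
  refine (MeasureTheory.measure_union_le _ _).trans ?_
  have hI : MeasureTheory.volume (Set.Icc (0 : ℝ) (δ / 8) ∪ Set.Icc (1 - δ / 8) 1) ≤ ENNReal.ofReal (δ / 4) := by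
    refine (MeasureTheory.measure_union_le _ _).trans ?_
    rw [Real.volume_Icc, Real.volume_Icc, ← ENNReal.ofReal_add (by linarith) (by linarith)]
    exact ENNReal.ofReal_le_ofReal (by linarith)
  have hU : MeasureTheory.volume (⋃ k ∈ range (n + 1),
      (Set.Icc (bk k - ε) (bk k + ε) ∪ Set.Icc (1 - bk k - ε) (1 - bk k + ε))) ≤ ENNReal.ofReal (δ / 4) := by
    refine (MeasureTheory.measure_biUnion_finset_le _ _).trans ?_
    have hk : ∀ k ∈ range (n + 1), MeasureTheory.volume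
        (Set.Icc (bk k - ε) (bk k + ε) ∪ Set.Icc (1 - bk k - ε) (1 - bk k + ε)) ≤ ENNReal.ofReal (4 * ε) := by
      intro k _
      refine (MeasureTheory.measure_union_le _ _).trans ?_
      rw [Real.volume_Icc, Real.volume_Icc, ← ENNReal.ofReal_add (by linarith) (by linarith)]
      exact ENNReal.ofReal_le_ofReal (by linarith)
    refine (Finset.sum_le_sum hk).trans ?_
    rw [Finset.sum_const, Finset.card_range, nsmul_eq_mul]
    have h7 : (((n + 1 : ℕ) : ENNReal)) = ENNReal.ofReal ((n : ℝ) + 1) := by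
      rw [← ENNReal.ofReal_natCast]
      push_cast
      rfl
    rw [h7, ← ENNReal.ofReal_mul (by linarith)]
    apply ENNReal.ofReal_le_ofReal
    nlinarith
  refine (add_le_add hI hU).trans ?_
  rw [← ENNReal.ofReal_add (by linarith) (by linarith)]
  exact ENNReal.ofReal_le_ofReal (by linarith)

theorem vol_affine {m : ℕ} (hm : 1 ≤ m) (c : ℝ) (B : Set ℝ) {β : ℝ} (hB : MeasureTheory.volume B ≤ ENNReal.ofReal β) :
    MeasureTheory.volume ({x : ℝ | m * x - c ∈ B} ∪ {x : ℝ | m * (1 - x) - c ∈ B}) ≤ ENNReal.ofReal (2 * β / m) := by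
  have hm0 : (0 : ℝ) < m := by exact_mod_cast hm
  have h1 : MeasureTheory.volume {x : ℝ | m * x - c ∈ B} ≤ ENNReal.ofReal (1 / m) * ENNReal.ofReal β := by
    have e : {x : ℝ | m * x - c ∈ B} = (fun x => (m : ℝ) * x) ⁻¹' ((fun y => y + (-c)) ⁻¹' B) := by
      ext x
      simp [sub_eq_add_neg]
    rw [e, Real.volume_preimage_mul_left hm0.ne', MeasureTheory.measure_preimage_add_right, abs_of_pos (by positivity)]
    rw [one_div]
    gcongr
  have h2 : MeasureTheory.volume {x : ℝ | m * (1 - x) - c ∈ B} ≤ ENNReal.ofReal (1 / m) * ENNReal.ofReal β := by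
    have e : {x : ℝ | m * (1 - x) - c ∈ B} = (fun x => (-(m : ℝ)) * x) ⁻¹' ((fun y => y + ((m : ℝ) - c)) ⁻¹' B) := by
      ext x
      simp only [Set.mem_ofPred_eq, Set.mem_preimage]
      have : (m : ℝ) * (1 - x) - c = -(m : ℝ) * x + ((m : ℝ) - c) := by ring
      rw [this]
    rw [e, Real.volume_preimage_mul_left (neg_ne_zero.2 hm0.ne'), MeasureTheory.measure_preimage_add_right]
    have h3 : |(-(m : ℝ))⁻¹| = 1 / m := by
      rw [abs_inv, abs_neg, abs_of_pos hm0, one_div]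
    rw [h3]
    gcongr
  refine (MeasureTheory.measure_union_le _ _).trans ((add_le_add h1 h2).trans ?_)
  rw [← two_mul, ← ENNReal.ofReal_mul (by positivity)]
  rcases le_or_gt 0 β with hβ | hβ
  · rw [show (2 : ENNReal) = ENNReal.ofReal 2 by simp, ← ENNReal.ofReal_mul (by norm_num)]
    apply ENNReal.ofReal_le_ofReal
    exact le_of_eq (by ring)
  · have h4 : 1 / (m : ℝ) * β ≤ 0 := mul_nonpos_of_nonneg_of_nonpos (by positivity) hβ.le
    rw [ENNReal.ofReal_of_nonpos h4, mul_zero]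
    exact zero_le

/-- For every `n`, `δ` and all large `m` the recursion holds for `n` steps outside a set of measure at most `δ`. -/
theorem iter (n : ℕ) : ∀ δ : ℝ, 0 < δ → ∃ M : ℕ, ∀ m : ℕ, M ≤ m →
    MeasureTheory.volume {x : ℝ | 0 ≤ x ∧ x ≤ 1 ∧ ¬ Good m n x} ≤ ENNReal.ofReal δ := by
  induction n with
  | zero =>
    intro δ _
    refine ⟨0, fun m _ => ?_⟩
    have e : {x : ℝ | 0 ≤ x ∧ x ≤ 1 ∧ ¬ Good m 0 x} = ∅ := by
      rw [Set.eq_empty_iff_forall_notMem]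
      rintro x ⟨h0, h1, h2⟩
      exact h2 ⟨0, x, ⟨rfl, rfl⟩, h0, h1, by simp⟩
    rw [e, MeasureTheory.measure_empty]
    exact zero_le
  | succ n ih =>
    intro δ hδ
    obtain ⟨k, M1, hM1⟩ := cover_measure' (by linarith : 0 < δ / 2)
    obtain ⟨β, hβ⟩ : ∃ β, β = δ / (8 * ((k : ℝ) + 1) ^ 2) := ⟨_, rfl⟩
    have hk0 : (0 : ℝ) ≤ k := Nat.cast_nonneg k
    have hβ0 : 0 < β := by rw [hβ]; positivity
    have hβ1 : β * ((k : ℝ) + 1) ^ 2 = δ / 8 := by
      rw [hβ]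
      field_simp
    obtain ⟨M2, hM2⟩ := ih β hβ0
    refine ⟨M1 + M2 + 2, fun m hm => ?_⟩
    have hm2 : 2 ≤ m := by omega
    have hm1 : 1 ≤ m := by omega
    have hm0 : (0 : ℝ) < m := by exact_mod_cast (by omega : 0 < m)
    have hm2R : (2 : ℝ) ≤ m := by exact_mod_cast hm2
    obtain ⟨B, hB⟩ : ∃ B : Set ℝ, B = {x : ℝ | 0 ≤ x ∧ x ≤ 1 ∧ ¬ Good m n x} := ⟨_, rfl⟩
    have hBv : MeasureTheory.volume B ≤ ENNReal.ofReal β := by
      rw [hB]
      exact hM2 m (by omega)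
    obtain ⟨T, hT⟩ : ∃ T : Finset (ℕ × ℕ × ℕ), T = (range (k + 1)) ×ˢ ((range (m + 1)) ×ˢ (range (k + 1))) := ⟨_, rfl⟩
    obtain ⟨c, hc⟩ : ∃ c : ℕ × ℕ × ℕ → ℝ, c = fun t =>
      (t.2.1 : ℝ) ^ (t.1 + 1 - t.2.2) * ((t.2.1 : ℝ) + 1) ^ t.2.2 / (m : ℝ) ^ t.1 := ⟨_, rfl⟩
    have hsub : {x : ℝ | 0 ≤ x ∧ x ≤ 1 ∧ ¬ Good m (n + 1) x} ⊆
        {x : ℝ | 0 ≤ x ∧ x ≤ 1 ∧ ¬ ∃ K : ℕ, K ≤ k ∧ bk (K + 1) < min x (1 - x) ∧
          min x (1 - x) < bk K ∧ Rec m K (min x (1 - x))} ∪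
        ⋃ t ∈ T, ({x : ℝ | m * x - c t ∈ B} ∪ {x : ℝ | m * (1 - x) - c t ∈ B}) := by
      rintro x ⟨hx0, hx1, hx2⟩
      by_contra hcon
      rw [Set.mem_union, not_or] at hcon
      obtain ⟨c1, c2⟩ := hcon
      have c1' : ∃ K : ℕ, K ≤ k ∧ bk (K + 1) < min x (1 - x) ∧
          min x (1 - x) < bk K ∧ Rec m K (min x (1 - x)) := by
        by_contra hne
        exact c1 ⟨hx0, hx1, hne⟩
      obtain ⟨K, hK, hb, hb', hR⟩ := c1'
      obtain ⟨v, y, hstep, hy0, hy1, hFx, p, i, hp, hi, hy⟩ := step_of_rec hm2 hx0 hx1 hb hb' hR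
      apply c2
      rw [Set.mem_iUnion₂]
      refine ⟨(K, p, i), ?_, ?_⟩
      · rw [hT]
        simp only [Finset.mem_product, Finset.mem_range]
        omega
      · have hyB : y ∈ B := by
          rw [hB]
          refine ⟨hy0, hy1, fun hgood => hx2 ?_⟩
          obtain ⟨A, z, hs, hz0, hz1, hF⟩ := hgood
          refine ⟨v + A / m, z, ⟨K, v, y, A, hstep, hs, rfl⟩, hz0, hz1, ?_⟩
          rw [hFx, hF, pow_succ]
          field_simp
          ring
        have hcy : c (K, p, i) = (p : ℝ) ^ (K + 1 - i) * ((p : ℝ) + 1) ^ i / (m : ℝ) ^ K := by rw [hc]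
        rcases le_total x (1 - x) with h | h
        · left
          rw [min_eq_left h] at hy
          show m * x - c (K, p, i) ∈ B
          rw [hcy, ← hy]
          exact hyB
        · right
          rw [min_eq_right h] at hy
          show m * (1 - x) - c (K, p, i) ∈ B
          rw [hcy, ← hy]
          exact hyB
    refine (MeasureTheory.measure_mono hsub).trans ?_
    refine (MeasureTheory.measure_union_le _ _).trans ?_
    have hU : MeasureTheory.volume (⋃ t ∈ T, ({x : ℝ | m * x - c t ∈ B} ∪ {x : ℝ | m * (1 - x) - c t ∈ B})) ≤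
        ENNReal.ofReal (δ / 2) := by
      refine (MeasureTheory.measure_biUnion_finset_le _ _).trans ?_
      refine (Finset.sum_le_sum fun t _ => vol_affine hm1 (c t) B hBv).trans ?_
      rw [Finset.sum_const, nsmul_eq_mul]
      have hcard : (T.card : ENNReal) = ENNReal.ofReal (((k : ℝ) + 1) * (((m : ℝ) + 1) * ((k : ℝ) + 1))) := by
        rw [hT, Finset.card_product, Finset.card_product, Finset.card_range, Finset.card_range,
          ← ENNReal.ofReal_natCast]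
        push_cast
        rfl
      rw [hcard, ← ENNReal.ofReal_mul (by positivity)]
      apply ENNReal.ofReal_le_ofReal
      have e : ((k : ℝ) + 1) * (((m : ℝ) + 1) * ((k : ℝ) + 1)) * (2 * β / m) =
          2 * (β * ((k : ℝ) + 1) ^ 2) * (((m : ℝ) + 1) / m) := by ring
      rw [e, hβ1]
      have h8 : ((m : ℝ) + 1) / m ≤ 2 := by
        rw [div_le_iff₀ hm0]
        linarith
      nlinarith
    refine (add_le_add (hM1 m (by omega)) hU).trans ?_
    rw [← ENNReal.ofReal_add (by linarith) (by linarith)]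
    exact ENNReal.ofReal_le_ofReal (by linarith)

end Pool.Agent.H14.ZN
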