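import Pool.Agent.H86.ZN.ZStep

/-!
# Project ZN: the cell of a point, and the exact recursion for all points of a compact part of a zone
-/

set_option autoImplicit false

namespace Pool.Agent.H14.ZN

open Finset Pool.Agent.H14RC Pool.Agent.H86.FM Pool.Agent.H86.ZN

theorem vq_at_zero (m k : ℕ) : vq m (k + 1) 0 = 0 := by
  unfold vq qc
  simp

theorem exists_cell {m : ℕ} (hm : 1 ≤ m) (k : ℕ) {x : ℝ} (hx : 0 ≤ x) :
    ∃ t : ℕ, vq m (k + 1) t ≤ x ∧ x < vq m (k + 1) (t + 1) := by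
  classical
  have hm0 : (0 : ℝ) < m := by exact_mod_cast hm
  have hex : ∃ t : ℕ, x < vq m (k + 1) t := by
    obtain ⟨n, hn⟩ := exists_nat_gt x
    refine ⟨(k + 1) * ((n + 1) * m), ?_⟩
    rw [vq_cube hm (by omega)]
    have e : ((((n + 1) * m : ℕ) : ℝ) / m) = (n : ℝ) + 1 := by
      push_cast
      field_simp
    rw [e]
    have h1 : (n : ℝ) + 1 ≤ ((n : ℝ) + 1) ^ (k + 1) := by
      have h2 : (1 : ℝ) ≤ (n : ℝ) + 1 := by
        have : (0 : ℝ) ≤ n := Nat.cast_nonneg n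
        linarith
      exact le_self_pow₀ h2 (by omega)
    linarith
  have hne : Nat.find hex ≠ 0 := by
    intro h0
    have := Nat.find_spec hex
    rw [h0, vq_at_zero] at this
    linarith
  obtain ⟨t, ht⟩ := Nat.exists_eq_succ_of_ne_zero hne
  refine ⟨t, ?_, ?_⟩
  · have := Nat.find_min hex (m := t) (by omega)
    exact not_lt.1 this
  · have := Nat.find_spec hex
    rwa [ht] at this

theorem loc {k : ℕ} {r1 s1 s2 r2 : ℝ} (hs1 : 0 ≤ s1) (hs2 : 0 ≤ s2) (h1 : r1 < s1) (h3 : s2 < r2) :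
    ∃ M : ℕ, ∀ m : ℕ, M ≤ m → ∀ x : ℝ, s1 ^ (k + 1) ≤ x → x ≤ s2 ^ (k + 1) →
      ∃ t : ℕ, vq m (k + 1) t ≤ x ∧ x < vq m (k + 1) (t + 1) ∧ r1 * m ≤ (Nk k t : ℝ) ∧ (Nk k t : ℝ) + 1 ≤ r2 * m := by
  obtain ⟨M1, hM1⟩ := exists_nat_ge (2 / (s1 - r1))
  obtain ⟨M2, hM2⟩ := exists_nat_ge (1 / (r2 - s2))
  refine ⟨M1 + M2 + 1, fun m hm x hx1 hx2 => ?_⟩
  have hm1 : 1 ≤ m := by omega
  have hm0 : (0 : ℝ) < m := by exact_mod_cast hm1
  have g1 : 2 ≤ (s1 - r1) * m := by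
    have h4 : (M1 : ℝ) ≤ m := by exact_mod_cast (by omega : M1 ≤ m)
    have h5 := hM1.trans h4
    rw [div_le_iff₀ (by linarith)] at h5
    linarith
  have g2 : 1 ≤ (r2 - s2) * m := by
    have h4 : (M2 : ℝ) ≤ m := by exact_mod_cast (by omega : M2 ≤ m)
    have h5 := hM2.trans h4
    rw [div_le_iff₀ (by linarith)] at h5
    linarith
  have hx0 : 0 ≤ x := le_trans (by positivity) hx1
  obtain ⟨t, ht1, ht2⟩ := exists_cell hm1 k hx0
  refine ⟨t, ht1, ht2, ?_, ?_⟩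
  · have h4 := vq_upper hm1 (k + 1) (t + 1)
    have h5 : s1 ^ (k + 1) < (((((t + 1) / (k + 1) : ℕ) : ℝ) + 1) / m) ^ (k + 1) :=
      lt_of_le_of_lt hx1 (lt_of_lt_of_le ht2 h4)
    have h6 : s1 < ((((t + 1) / (k + 1) : ℕ) : ℝ) + 1) / m := lt_of_pow_lt_pow_left₀ _ (by positivity) h5
    rw [lt_div_iff₀ hm0] at h6
    have h7 : (t + 1) / (k + 1) ≤ t / (k + 1) + 1 := by
      rw [← Nat.add_div_right t (by omega : 0 < k + 1)]
      exact Nat.div_le_div_right (by omega)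
    have h8 : (((t + 1) / (k + 1) : ℕ) : ℝ) ≤ (Nk k t : ℝ) + 1 := by
      unfold Nk
      exact_mod_cast h7
    linarith
  · have h4 := vq_lower hm1 (k + 1) t
    have h5 : ((((t / (k + 1) : ℕ) : ℝ)) / m) ^ (k + 1) ≤ s2 ^ (k + 1) := h4.trans (ht1.trans hx2)
    have h6 : (((t / (k + 1) : ℕ) : ℝ)) / m ≤ s2 := le_of_pow_le_pow_left₀ (by omega) hs2 h5
    rw [div_le_iff₀ hm0] at h6
    unfold Nk
    linarith

/-- The exact recursion at all points of a compact part of zone `k`, in terms of quasi-cubes. -/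
theorem zone_formula {k : ℕ} (hk : 1 ≤ k) {s1 s2 : ℝ} (h1 : loR k < s1) (h2 : s1 ≤ s2) (h3 : s2 < upR k) :
    ∃ M : ℕ, ∀ m : ℕ, M ≤ m → ∀ x : ℝ, s1 ^ (k + 1) ≤ x → x ≤ s2 ^ (k + 1) →
      ∃ p i : ℕ, 1 ≤ p ∧ i ≤ k ∧ p + 1 ≤ m ∧
        (p : ℝ) ^ (k + 1 - i) * ((p : ℝ) + 1) ^ i / (m : ℝ) ^ (k + 1) ≤ x ∧
        x < (p : ℝ) ^ (k - i) * ((p : ℝ) + 1) ^ (i + 1) / (m : ℝ) ^ (k + 1) ∧
        F m x = ((((k + 1 - i : ℕ) : ℝ) / p + (i : ℝ) / ((p : ℝ) + 1)) *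
            ((p : ℝ) ^ (k + 1 - i) * ((p : ℝ) + 1) ^ i)) / (m : ℝ) ^ k +
          F m (m * x - (p : ℝ) ^ (k + 1 - i) * ((p : ℝ) + 1) ^ i / (m : ℝ) ^ k) / m := by
  obtain ⟨r1, hr1⟩ : ∃ r, r = (loR k + s1) / 2 := ⟨_, rfl⟩
  obtain ⟨r2, hr2⟩ : ∃ r, r = (s2 + upR k) / 2 := ⟨_, rfl⟩
  have hlo := loR_pos k
  have hz := zz_all k hk r1 r2 (by linarith) (by linarith) (by linarith)
  obtain ⟨M1, hM1⟩ := hz
  obtain ⟨M2, hM2⟩ := node_val hk (by linarith : 0 < r1) ⟨M1, hM1⟩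
  obtain ⟨M3, hM3⟩ := loc (k := k) (r1 := r1) (s1 := s1) (s2 := s2) (r2 := r2) (by linarith) (by linarith)
    (by linarith) (by linarith)
  refine ⟨M1 + M2 + M3 + 2, fun m hm x hx1 hx2 => ?_⟩
  have hm2 : 2 ≤ m := by omega
  have hm1 : 1 ≤ m := by omega
  have hm0 : (0 : ℝ) < m := by exact_mod_cast (by omega : 0 < m)
  obtain ⟨t, ht1, ht2, ht3, ht4⟩ := hM3 m (by omega) x hx1 hx2
  obtain ⟨hl, -⟩ := hM1 m (by omega) t ht3 ht4
  obtain ⟨hv, -⟩ := hM2 m (by omega) t ht3 ht4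
  have hp1 : 1 ≤ t / (k + 1) := hl.pos
  have hpm : t / (k + 1) + 1 ≤ m := hl.lt
  have hi : t % (k + 1) ≤ k := Nat.lt_succ_iff.1 (Nat.mod_lt _ (by omega))
  have eQ : vq m (k + 1) t = ((t / (k + 1) : ℕ) : ℝ) ^ (k + 1 - t % (k + 1)) *
      (((t / (k + 1) : ℕ) : ℝ) + 1) ^ (t % (k + 1)) / (m : ℝ) ^ (k + 1) := by
    unfold vq qc
    push_cast
    ring
  have eQ' : vq m (k + 1) (t + 1) = ((t / (k + 1) : ℕ) : ℝ) ^ (k - t % (k + 1)) *
      (((t / (k + 1) : ℕ) : ℝ) + 1) ^ (t % (k + 1) + 1) / (m : ℝ) ^ (k + 1) := by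
    have h4 : (m : ℝ) * vq m (k + 1) (t + 1) = (((t / (k + 1) : ℕ) : ℝ) + 1) * vq m k (t - t / (k + 1)) :=
      vq_rec' hm1 k t
    have h5 : (m : ℝ) * vq m (k + 1) t = ((t / (k + 1) : ℕ) : ℝ) * vq m k (t - t / (k + 1)) :=
      vq_rec hm1 k t
    have hpR : (0 : ℝ) < ((t / (k + 1) : ℕ) : ℝ) := by exact_mod_cast hp1
    have h6 : vq m k (t - t / (k + 1)) = m * vq m (k + 1) t / ((t / (k + 1) : ℕ) : ℝ) := by
      rw [h5]
      field_simp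
    have h7 : vq m (k + 1) (t + 1) = (((t / (k + 1) : ℕ) : ℝ) + 1) * vq m (k + 1) t / ((t / (k + 1) : ℕ) : ℝ) := by
      have h8 : (m : ℝ) * vq m (k + 1) (t + 1) =
          m * ((((t / (k + 1) : ℕ) : ℝ) + 1) * vq m (k + 1) t / ((t / (k + 1) : ℕ) : ℝ)) := by
        rw [h4, h6]
        ring
      exact mul_left_cancel₀ hm0.ne' h8
    have h9 : k + 1 - t % (k + 1) = (k - t % (k + 1)) + 1 := by omega
    rw [h7, eQ, h9]
    field_simp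
    ring
  refine ⟨t / (k + 1), t % (k + 1), hp1, hi, hpm, ?_, ?_, ?_⟩
  · rw [← eQ]
    exact ht1
  · rw [← eQ']
    exact ht2
  · have hy0 : 0 ≤ m * (x - vq m (k + 1) t) := mul_nonneg hm0.le (by linarith)
    have hy1 : m * (x - vq m (k + 1) t) ≤ wk m k t := by
      have h4 := hl.hv
      have h5 := hl.hv'
      have h6 : (m : ℝ) * x ≤ m * vq m (k + 1) (t + 1) := mul_le_mul_of_nonneg_left ht2.le hm0.le
      rw [h5] at h6
      linarith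
    have h4 := hl.ex _ hy0 hy1
    have h5 : vq m (k + 1) t + m * (x - vq m (k + 1) t) / m = x := by
      field_simp
      ring
    rw [h5, hv] at h4
    have h6 : (m : ℝ) * (x - vq m (k + 1) t) = m * x - ((t / (k + 1) : ℕ) : ℝ) ^ (k + 1 - t % (k + 1)) *
      (((t / (k + 1) : ℕ) : ℝ) + 1) ^ (t % (k + 1)) / (m : ℝ) ^ k := by
      rw [eQ]
      field_simp
      ring
    rw [h6] at h4
    rw [h4]
    congr 1
    rw [eQ]
    unfold Sq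
    rw [pow_succ]
    have hpR : (0 : ℝ) < ((t / (k + 1) : ℕ) : ℝ) := by exact_mod_cast hp1
    field_simp

end Pool.Agent.H14.ZN
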