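import Pool.Agent.H14.ZN.Uniq

/-!
# The maximal function of a relaxed-convexity class: the exact recursion in all zones (proposal for the result file)
-/

set_option autoImplicit false

namespace Pool.Agent.H14.ZN

open Pool.Agent.H14RC Pool.Agent.H86.FM Pool.Agent.H86.ZN

/-- **The zone recursion.** `bk k = (k/(k+1))^(k(k+1))`, zone `K` is `(bk (K+1), bk K)`, `w = min x (1-x)`.
* For every `ε > 0` and all large `m`: at every `x ∈ [ε, 1-ε]` with `|w - bk k| ≥ ε` for all `k ≥ 1` we have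
  `F m x = v + F m y / m`, where `K` is the zone of `w`, `(p, i)` its cell, `Q = p^(K+1-i) (p+1)^i`,
  `v = ((K+1-i) Q/p + i Q/(p+1)) / m^K`, `y = m w - Q/m^K`.
* For every `n` and `δ > 0` and all large `m`, outside a set of measure at most `δ`: `n` steps can be made,
  `F m x = A + F m z / m^n`, and `|F m x - A| ≤ 2/m^n`.
* The steps are unique. -/
theorem zone_recursion :
    (∀ ε : ℝ, 0 < ε → ∃ M : ℕ, ∀ m : ℕ, M ≤ m → ∀ x : ℝ, ε ≤ x → x ≤ 1 - ε →
      (∀ k : ℕ, 1 ≤ k → ε ≤ |min x (1 - x) - bk k|) →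
      ∃ (K : ℕ) (v y : ℝ), Step m K x v y ∧ 0 ≤ y ∧ y ≤ 1 ∧ F m x = v + F m y / m) ∧
    (∀ (n : ℕ) (δ : ℝ), 0 < δ → ∃ M : ℕ, ∀ m : ℕ, M ≤ m →
      MeasureTheory.volume {x : ℝ | 0 ≤ x ∧ x ≤ 1 ∧ ¬ ∃ A z : ℝ, Steps m n x A z ∧ 0 ≤ z ∧ z ≤ 1 ∧
        F m x = A + F m z / (m : ℝ) ^ n ∧ |F m x - A| ≤ 2 / (m : ℝ) ^ n} ≤ ENNReal.ofReal δ) ∧
    (∀ (m n : ℕ) (x A z A' z' : ℝ), 1 ≤ m → Steps m n x A z → Steps m n x A' z' → A = A' ∧ z = z') := by
  refine ⟨?_, ?_, fun m n x A z A' z' hm h h' => Steps.unique hm n h h'⟩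
  · intro ε hε
    obtain ⟨M, hM⟩ := cover hε
    refine ⟨M + 2, fun m hm x h0 h1 hx => ?_⟩
    obtain ⟨K, hK1, hK2, hK3⟩ := hM m (by omega) (min x (1 - x)) (le_min h0 (by linarith))
      (by
        rcases le_total x (1 - x) with h | h
        · rw [min_eq_left h]; linarith
        · rw [min_eq_right h]; linarith) hx
    obtain ⟨v, y, hs, hy0, hy1, hF, -⟩ := step_of_rec (by omega) (by linarith) (by linarith) hK1 hK2 hK3
    exact ⟨K, v, y, hs, hy0, hy1, hF⟩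
  · intro n δ hδ
    obtain ⟨M, hM⟩ := iter n δ hδ
    refine ⟨M + 2, fun m hm => le_trans (MeasureTheory.measure_mono ?_) (hM m (by omega))⟩
    rintro x ⟨h0, h1, h2⟩
    refine ⟨h0, h1, fun h => h2 ?_⟩
    obtain ⟨A, z, hs, hz0, hz1, hF⟩ := h
    refine ⟨A, z, hs, hz0, hz1, hF, ?_⟩
    have hm2 : 2 ≤ m := by omega
    have hmR : (2 : ℝ) ≤ m := by exact_mod_cast hm2
    have h3 := F_nonneg hm2 hz0 hz1
    have h4 : F m z ≤ 2 := by
      refine (F_le_sup hm2 hz0 hz1).trans ?_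
      rw [div_le_iff₀ (by linarith)]
      linarith
    rw [hF, add_sub_cancel_left, abs_of_nonneg (by positivity)]
    exact div_le_div_of_nonneg_right h4 (by positivity)

end Pool.Agent.H14.ZN
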