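import Pool.Agent.H14.ZN.Iter

/-!
# Project ZN: the step of the recursion is unique
-/

set_option autoImplicit false

namespace Pool.Agent.H14.ZN

open Finset Pool.Agent.H14RC Pool.Agent.H86.FM Pool.Agent.H86.ZN

theorem bk_succ_le (k : ℕ) : bk (k + 1) ≤ bk k := by
  have h1 : bk (k + 1) = loR k ^ (k + 1) := by
    rw [bk_succ]
    unfold loR
    rw [← pow_mul, mul_comm]
  have h2 : bk k = upR k ^ (k + 1) := by
    unfold bk upR
    rw [← pow_mul]
  rw [h1, h2]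
  exact pow_le_pow_left₀ (loR_pos k).le (loR_lt_upR k k).le _

theorem zone_unique {K K' : ℕ} {w : ℝ} (h1 : bk (K + 1) < w) (h2 : w < bk K) (h3 : bk (K' + 1) < w) (h4 : w < bk K') :
    K = K' := by
  have hanti : Antitone bk := antitone_nat_of_succ_le bk_succ_le
  rcases lt_trichotomy K K' with h | h | h
  · have := hanti (show K + 1 ≤ K' from h)
    linarith
  · exact h
  · have := hanti (show K' + 1 ≤ K from h)
    linarith

theorem vq_cell {m K p i : ℕ} (hi : i ≤ K) : (m : ℝ) ^ (K + 1) * vq m (K + 1) ((K + 1) * p + i) * 1 =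
    (m : ℝ) ^ (K + 1) / (m : ℝ) ^ (K + 1) * ((p : ℝ) ^ (K + 1 - i) * ((p : ℝ) + 1) ^ i) := by
  have hdiv : ((K + 1) * p + i) / (K + 1) = p := by
    rw [Nat.mul_add_div (by omega : 0 < K + 1), Nat.div_eq_of_lt (by omega), add_zero]
  have hmod : ((K + 1) * p + i) % (K + 1) = i := by
    rw [Nat.mul_add_mod, Nat.mod_eq_of_lt (by omega)]
  unfold vq qc
  rw [hdiv, hmod]
  push_cast
  ring

theorem cell_unique {m K p i p' i' : ℕ} (hm : 1 ≤ m) (hi : i ≤ K) (hi' : i' ≤ K) {W : ℝ}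
    (h1 : (p : ℝ) ^ (K + 1 - i) * ((p : ℝ) + 1) ^ i ≤ W) (h2 : W < (p : ℝ) ^ (K - i) * ((p : ℝ) + 1) ^ (i + 1))
    (h3 : (p' : ℝ) ^ (K + 1 - i') * ((p' : ℝ) + 1) ^ i' ≤ W)
    (h4 : W < (p' : ℝ) ^ (K - i') * ((p' : ℝ) + 1) ^ (i' + 1)) : p = p' ∧ i = i' := by
  have hm0 : (0 : ℝ) < m := by exact_mod_cast hm
  have hmK : (0 : ℝ) < (m : ℝ) ^ (K + 1) := by positivity
  have eQ : ∀ q j : ℕ, j ≤ K → (m : ℝ) ^ (K + 1) * vq m (K + 1) ((K + 1) * q + j) =
      (q : ℝ) ^ (K + 1 - j) * ((q : ℝ) + 1) ^ j := by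
    intro q j hj
    have := vq_cell (m := m) (p := q) hj
    rw [mul_one, div_self hmK.ne', one_mul] at this
    exact this
  have eQ' : ∀ q j : ℕ, j ≤ K → (m : ℝ) ^ (K + 1) * vq m (K + 1) ((K + 1) * q + j + 1) =
      (q : ℝ) ^ (K - j) * ((q : ℝ) + 1) ^ (j + 1) := by
    intro q j hj
    rcases lt_or_eq_of_le hj with h | h
    · rw [show (K + 1) * q + j + 1 = (K + 1) * q + (j + 1) by ring, eQ q (j + 1) h,
        show K + 1 - (j + 1) = K - j by omega]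
    · rw [h, show (K + 1) * q + K + 1 = (K + 1) * (q + 1) + 0 by ring, eQ (q + 1) 0 (by omega)]
      simp
  have key : ∀ q j q' j' : ℕ, j ≤ K → j' ≤ K → (q' : ℝ) ^ (K + 1 - j') * ((q' : ℝ) + 1) ^ j' ≤ W →
      W < (q : ℝ) ^ (K - j) * ((q : ℝ) + 1) ^ (j + 1) → (K + 1) * q' + j' ≤ (K + 1) * q + j := by
    intro q j q' j' hj hj' hl hu
    by_contra hcon
    push Not at hcon
    have h5 := vq_mono hm (K + 1) (show (K + 1) * q + j + 1 ≤ (K + 1) * q' + j' from hcon)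
    have h6 := mul_le_mul_of_nonneg_left h5 hmK.le
    rw [eQ q' j' hj', eQ' q j hj] at h6
    linarith
  have h5 := key p i p' i' hi hi' h3 h2
  have h6 := key p' i' p i hi' hi h1 h4
  have h7 : (K + 1) * p + i = (K + 1) * p' + i' := le_antisymm h6 h5
  have hdiv : ∀ q j : ℕ, j ≤ K → ((K + 1) * q + j) / (K + 1) = q := by
    intro q j hj
    rw [Nat.mul_add_div (by omega : 0 < K + 1), Nat.div_eq_of_lt (by omega), add_zero]
  have h8 : p = p' := by
    rw [← hdiv p i hi, h7, hdiv p' i' hi']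
  subst h8
  exact ⟨rfl, by omega⟩

theorem Step.unique {m K K' : ℕ} (hm : 1 ≤ m) {x v y v' y' : ℝ} (h : Step m K x v y) (h' : Step m K' x v' y') :
    K = K' ∧ v = v' ∧ y = y' := by
  obtain ⟨a1, a2, p, i, a3, a4, a5, a6, a7, a8⟩ := h
  obtain ⟨b1, b2, p', i', b3, b4, b5, b6, b7, b8⟩ := h'
  have hK := zone_unique a1 a2 b1 b2
  subst hK
  obtain ⟨hp, hi⟩ := cell_unique hm a4 b4 a5 a6 b5 b6
  subst hp
  subst hi
  exact ⟨rfl, a7.trans b7.symm, a8.trans b8.symm⟩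

theorem Steps.unique {m : ℕ} (hm : 1 ≤ m) : ∀ (n : ℕ) {x A z A' z' : ℝ}, Steps m n x A z → Steps m n x A' z' →
    A = A' ∧ z = z' := by
  intro n
  induction n with
  | zero =>
    intro x A z A' z' h h'
    obtain ⟨a1, a2⟩ := h
    obtain ⟨b1, b2⟩ := h'
    exact ⟨a1.trans b1.symm, a2.trans b2.symm⟩
  | succ n ih =>
    intro x A z A' z' h h'
    obtain ⟨K, v, y, B, s, t, e⟩ := h
    obtain ⟨K', v', y', B', s', t', e'⟩ := h'
    obtain ⟨-, hv, hy⟩ := s.unique hm s'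
    subst hv
    subst hy
    obtain ⟨hB, hz⟩ := ih t t'
    subst hB
    exact ⟨e.trans e'.symm, hz⟩

end Pool.Agent.H14.ZN
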