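import Pool.Agent.H86.ZN.Par
import Pool.Agent.H86.FM.GFacts

/-!
# Project ZN: the equality case of the two-point inequality for `G`

If a chord of `G` over `[a, Y]` attains equality at `x < 1/4` then `a = 0`, `x = r^(i+1)`, `Y = r^i` and `x` lies in the closed zone `i`.
-/

set_option autoImplicit false

namespace Pool.Agent.H14.ZN

open Finset Pool.Agent.H14RC Pool.Agent.H86.FM Pool.Agent.H86.Z1 Pool.Agent.H86.ZN

theorem pow_gap (n : ℕ) {q r : ℝ} (hq : 0 ≤ q) (hr : 0 ≤ r) :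
    ((n : ℝ) + 1) * r ^ n * (q - r) ^ 2 ≤
      q ^ (n + 2) + ((n : ℝ) + 1) * r ^ (n + 2) - ((n : ℝ) + 2) * r ^ (n + 1) * q := by
  induction n with
  | zero =>
    push_cast
    nlinarith
  | succ n ih =>
    have h0 : 0 ≤ ((n : ℝ) + 1) * r ^ n * (q - r) ^ 2 := by positivity
    have h1 : 0 ≤ q * (q ^ (n + 2) + ((n : ℝ) + 1) * r ^ (n + 2) - ((n : ℝ) + 2) * r ^ (n + 1) * q) :=
      mul_nonneg hq (h0.trans ih)
    have e : q ^ (n + 1 + 2) + (((n + 1 : ℕ) : ℝ) + 1) * r ^ (n + 1 + 2) -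
        (((n + 1 : ℕ) : ℝ) + 2) * r ^ (n + 1 + 1) * q =
        q * (q ^ (n + 2) + ((n : ℝ) + 1) * r ^ (n + 2) - ((n : ℝ) + 2) * r ^ (n + 1) * q) +
          (((n + 1 : ℕ) : ℝ) + 1) * r ^ (n + 1) * (q - r) ^ 2 := by
      push_cast
      ring
    rw [e]
    linarith

theorem G_attained {Y : ℝ} (h0 : 0 < Y) (h1 : Y ≤ 3 / 4) : ∃ j : ℕ, G Y = a j Y := by
  obtain ⟨N, hN⟩ := exists_nat_gt (1 / Y)
  obtain ⟨j, -, hj⟩ := Finset.exists_min_image (range (N + 1)) (fun k => a k Y) ⟨0, by simp⟩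
  have hj0 : a j Y ≤ 1 := by
    have := hj 0 (by simp)
    simpa [a_zero] using this
  refine ⟨j, le_antisymm (G_le j h0.le (by linarith)) (le_G ?_ ?_)⟩
  · intro k
    by_cases hk : k ∈ range (N + 1)
    · exact hj k hk
    · have hk' : N + 1 ≤ k := by
        simpa using hk
      have hkR : (N : ℝ) + 1 ≤ k := by exact_mod_cast hk'
      rw [div_lt_iff₀ h0] at hN
      have h2 : Y ≤ Y ^ ((k : ℝ) / ((k : ℝ) + 1)) := by
        have h3 : (k : ℝ) / ((k : ℝ) + 1) ≤ 1 := by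
          rw [div_le_one (by positivity)]
          linarith
        have := Real.rpow_le_rpow_of_exponent_ge h0 (by linarith) h3
        rwa [Real.rpow_one] at this
      have h4 : ((k : ℝ) + 1) * Y ≤ a k Y := by
        unfold a
        exact mul_le_mul_of_nonneg_left h2 (by positivity)
      have h5 : (N : ℝ) * Y ≤ ((k : ℝ) + 1) * Y := mul_le_mul_of_nonneg_right (by linarith) h0.le
      linarith
  · intro k
    have := a_lower k (v := 1 - Y) (by linarith)
    rw [min_eq_left (by linarith)] at this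
    linarith

/-- The two-point inequality is strict for `3/4 ≤ Y`, `x < 1/4`. -/
theorem excess_hi {b x Y : ℝ} (hb : 0 ≤ b) (hbx : b ≤ x) (hx0 : 0 < x) (hx : x < 1 / 4) (hY4 : 3 / 4 ≤ Y)
    (hY : Y ≤ 1) : (Y - b) * G x < (Y - x) * G b + (x - b) * G Y + (Y - b) ^ 2 := by
  have h1 := G_le_sqrt hx0.le (by linarith)
  have h2 := G_ge_four hb (by linarith)
  have h3 := G_ge_four' hY4 hY
  obtain ⟨r, hr⟩ : ∃ r, r = √x := ⟨_, rfl⟩
  have hr0 : 0 < r := by rw [hr]; exact Real.sqrt_pos.2 hx0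
  have hrx : r ^ 2 = x := by rw [hr]; exact Real.sq_sqrt hx0.le
  have hr1 : r < 1 / 2 := by
    by_contra h
    push Not at h
    nlinarith
  rw [← hr] at h1
  subst hrx
  have h4 : (Y - r ^ 2) * (4 * b) ≤ (Y - r ^ 2) * G b := mul_le_mul_of_nonneg_left h2 (by linarith)
  have h5 : (r ^ 2 - b) * (4 * (1 - Y)) ≤ (r ^ 2 - b) * G Y := mul_le_mul_of_nonneg_left h3 (by linarith)
  have h6 : (Y - b) * G (r ^ 2) ≤ (Y - b) * (2 * r) := mul_le_mul_of_nonneg_left h1 (by linarith)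
  have h7 : 0 ≤ b * (6 * Y - 4 * r ^ 2 - 4 + 2 * r) := by
    apply mul_nonneg hb
    nlinarith
  have h8 : 0 < r ^ 2 * ((1 - 2 * r) * (3 + 2 * r)) := by
    apply mul_pos (by positivity)
    apply mul_pos <;> linarith
  nlinarith [sq_nonneg (Y - (r + 2 * r ^ 2)), sq_nonneg b]

/-- For a positive left end point the two-point inequality is strict (nonnegative slope). -/
theorem excess_pos {b x Y : ℝ} (hb : 0 < b) (hbx : b < x) (hxY : x < Y) (hY : Y ≤ 1) (hG : G b ≤ G Y) :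
    (Y - b) * G x < (Y - x) * G b + (x - b) * G Y + (Y - b) ^ 2 := by
  by_contra hcon
  push Not at hcon
  have hx0 : 0 < x := by linarith
  have hd0 : 0 < Y - b := by linarith
  obtain ⟨s, hs⟩ : ∃ s, s = (G Y - G b) / (Y - b) := ⟨_, rfl⟩
  have hsm : s * (Y - b) = G Y - G b := by rw [hs]; field_simp
  have hs0 : 0 ≤ s := by rw [hs]; exact div_nonneg (by linarith) hd0.le
  obtain ⟨T, hT⟩ : ∃ T, T = G x - s * x := ⟨_, rfl⟩
  obtain ⟨c, hc⟩ : ∃ c, c = G b - s * b := ⟨_, rfl⟩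
  have hc' : c = G Y - s * Y := by rw [hc]; linarith
  have hE : Y - b ≤ T - c := by
    have h1 : (Y - b) * (Y - b) ≤ (Y - b) * (T - c) := by
      have h2 : (Y - x) * G b + (x - b) * G Y = (Y - b) * (c + s * x) := by
        have e1 : G b = c + s * b := by linarith
        have e2 : G Y = c + s * Y := by linarith
        rw [e1, e2]
        ring
      rw [hT]
      nlinarith
    exact le_of_mul_le_mul_left h1 hd0
  -- concavity and scaling
  have h1 : b * T < x * c := by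
    have hl0 : 0 < b / x := by positivity
    have hl1 : b / x < 1 := by rw [div_lt_one hx0]; exact hbx
    have h2 := G_scale hl0 hl1.le hx0.le (by linarith)
    have e1 : b / x * x = b := by field_simp
    have h3 : 0 < Real.log (1 / (b / x)) := Real.log_pos (by rw [lt_div_iff₀ hl0]; linarith)
    rw [e1] at h2
    have h4 : x * (b / x * G x) = b * G x := by field_simp
    have h5 : b * G x < x * G b := by
      have h6 := mul_le_mul_of_nonneg_left h2 hx0.le
      have h7 : 0 < x * (b / x * Real.log (1 / (b / x)) * x) := by positivity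
      nlinarith
    rw [hT, hc]
    nlinarith
  have hTpos : 0 < T := by
    by_contra hneg
    push Not at hneg
    nlinarith [mul_nonneg (show 0 ≤ x - b by linarith) (show 0 ≤ -T by linarith)]
  have hc0 : 0 ≤ c := by
    by_contra hneg
    push Not at hneg
    nlinarith [mul_nonneg hb.le hTpos.le]
  have hd : 0 < T - c := by linarith
  obtain ⟨y0, hy0⟩ : ∃ y0, y0 = (Y * T - x * c) / (T - c) := ⟨_, rfl⟩
  have hy0mul : y0 * (T - c) = Y * T - x * c := by
    rw [hy0]; field_simp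
  have hby0 : Y ≤ y0 := by
    rw [hy0, le_div_iff₀ hd]
    nlinarith [mul_nonneg hc0 (show 0 ≤ Y - x by linarith)]
  have hTy0 : T ≤ y0 := by
    rcases le_or_gt y0 1 with h | h
    · have h2 := G_conc3 (u := x) (v := Y) (w := y0) hx0.le hxY.le hby0 h
      have hGb : G Y = c + s * Y := by linarith
      have hGx : G x = T + s * x := by rw [hT]; ring
      rw [hGb, hGx] at h2
      have h3 : (Y - x) * (G y0 - s * y0) ≤ 0 := by nlinarith
      have h4 : G y0 - s * y0 ≤ 0 := by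
        by_contra hneg
        push Not at hneg
        nlinarith [mul_pos (show 0 < Y - x by linarith) hneg]
      have h5 := key' (x := x) (b := y0) hx0.le (hxY.le.trans hby0) (by linarith) h
      rw [hGx] at h5
      have hy0pos : 0 < y0 := by linarith
      have h6 : y0 * T ≤ y0 * y0 := by nlinarith
      exact le_of_mul_le_mul_left h6 hy0pos
    · have := G_le_one hx0.le (by linarith)
      rw [hT]
      nlinarith
  have h7 : 0 ≤ (y0 - T) * (T - c) := mul_nonneg (by linarith) hd.le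
  have h8 : T * (Y - b - (T - c)) ≤ 0 := mul_nonpos_of_nonneg_of_nonpos hTpos.le (by linarith)
  nlinarith

private theorem zone_up (j : ℕ) {r : ℝ} (hr : 0 < r) (hx1 : r ^ (j + 2) ≤ 1)
    (hG : ((j : ℝ) + 2) * r ^ (j + 1) ≤ G (r ^ (j + 2))) : r ≤ upR (j + 1) := by
  obtain ⟨p, hp0, hp⟩ := exists_root j (x := r ^ (j + 2)) (by positivity)
  have h1 := G_le j (x := r ^ (j + 2)) (by positivity) hx1
  rw [← hp, a_pow j hp0, hp] at h1
  have h2 : ((j : ℝ) + 2) * r ^ (j + 1) * p ≤ ((j : ℝ) + 1) * p ^ j * p :=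
    mul_le_mul_of_nonneg_right (hG.trans h1) hp0
  have h3 : ((j : ℝ) + 1) * p ^ j * p = ((j : ℝ) + 1) * r ^ (j + 1) * r := by
    have : p ^ j * p = r ^ (j + 1) * r := by
      rw [← pow_succ, ← pow_succ]
      exact hp
    linear_combination ((j : ℝ) + 1) * this
  have hr1 : 0 < r ^ (j + 1) := by positivity
  have h4 : ((j : ℝ) + 2) * p ≤ ((j : ℝ) + 1) * r := by
    have : r ^ (j + 1) * (((j : ℝ) + 2) * p) ≤ r ^ (j + 1) * (((j : ℝ) + 1) * r) := by
      linarith
    exact le_of_mul_le_mul_left this hr1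
  have hj2 : (0 : ℝ) < (j : ℝ) + 2 := by positivity
  have h5 : p ≤ ((j : ℝ) + 1) / ((j : ℝ) + 2) * r := by
    rw [div_mul_eq_mul_div, le_div_iff₀ hj2]
    linarith
  have h6 : p ^ (j + 1) ≤ (((j : ℝ) + 1) / ((j : ℝ) + 2) * r) ^ (j + 1) := pow_le_pow_left₀ hp0 h5 _
  rw [hp, mul_pow] at h6
  have h7 : r ^ (j + 1) * r ≤ r ^ (j + 1) * (((j : ℝ) + 1) / ((j : ℝ) + 2)) ^ (j + 1) := by
    have : r ^ (j + 1) * r = r ^ (j + 2) := by rw [← pow_succ]
    linarith
  have h8 := le_of_mul_le_mul_left h7 hr1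
  unfold upR
  push_cast
  have e : ((j : ℝ) + 1 + 1) = (j : ℝ) + 2 := by ring
  rw [e]
  exact h8

private theorem zone_lo (j : ℕ) {r : ℝ} (hr : 0 < r) (hx1 : r ^ (j + 2) ≤ 1)
    (hG : ((j : ℝ) + 2) * r ^ (j + 1) ≤ G (r ^ (j + 2))) : loR (j + 1) ≤ r := by
  obtain ⟨p, hp0, hp⟩ := exists_root (j + 2) (x := r ^ (j + 2)) (by positivity)
  have h1 := G_le (j + 2) (x := r ^ (j + 2)) (by positivity) hx1
  rw [← hp, a_pow (j + 2) hp0, hp] at h1
  push_cast at h1
  have h2 : ((j : ℝ) + 2) * r ^ (j + 1) * p ≤ ((j : ℝ) + 2 + 1) * p ^ (j + 2) * p :=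
    mul_le_mul_of_nonneg_right (hG.trans h1) hp0
  have h3 : ((j : ℝ) + 2 + 1) * p ^ (j + 2) * p = ((j : ℝ) + 3) * r ^ (j + 1) * r := by
    have : p ^ (j + 2) * p = r ^ (j + 1) * r := by
      rw [← pow_succ, ← pow_succ]
      exact hp
    linear_combination ((j : ℝ) + 3) * this
  have hr1 : 0 < r ^ (j + 1) := by positivity
  have h4 : ((j : ℝ) + 2) * p ≤ ((j : ℝ) + 3) * r := by
    have : r ^ (j + 1) * (((j : ℝ) + 2) * p) ≤ r ^ (j + 1) * (((j : ℝ) + 3) * r) := by
      linarith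
    exact le_of_mul_le_mul_left this hr1
  have hj3 : (0 : ℝ) < (j : ℝ) + 3 := by positivity
  have h5 : ((j : ℝ) + 2) / ((j : ℝ) + 3) * p ≤ r := by
    rw [div_mul_eq_mul_div, div_le_iff₀ hj3]
    linarith
  have h6 : (((j : ℝ) + 2) / ((j : ℝ) + 3) * p) ^ (j + 3) ≤ r ^ (j + 3) :=
    pow_le_pow_left₀ (by positivity) h5 _
  have hp' : p ^ (j + 3) = r ^ (j + 2) := hp
  rw [mul_pow, hp'] at h6
  have h7 : r ^ (j + 2) * (((j : ℝ) + 2) / ((j : ℝ) + 3)) ^ (j + 3) ≤ r ^ (j + 2) * r := by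
    have : r ^ (j + 2) * r = r ^ (j + 3) := by rw [← pow_succ]
    linarith
  have h8 := le_of_mul_le_mul_left h7 (by positivity)
  unfold loR
  push_cast
  have e1 : ((j : ℝ) + 1 + 1) = (j : ℝ) + 2 := by ring
  have e2 : ((j : ℝ) + 1 + 2) = (j : ℝ) + 3 := by ring
  rw [e1, e2]
  exact h8

/-- The equality case of the two-point inequality. -/
theorem excess_zero {b x Y : ℝ} (hb : 0 ≤ b) (hbx : b < x) (hxY : x < Y) (hY : Y ≤ 1) (hx : x < 1 / 4)
    (hE : (Y - x) * G b + (x - b) * G Y + (Y - b) ^ 2 ≤ (Y - b) * G x) :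
    b = 0 ∧ ∃ i : ℕ, 1 ≤ i ∧ ∃ r : ℝ, loR i ≤ r ∧ r ≤ upR i ∧ x = r ^ (i + 1) ∧ Y = r ^ i ∧
      G x = ((i : ℝ) + 1) * r ^ i := by
  have hx0 : 0 < x := by linarith
  have hY0 : 0 < Y := by linarith
  have hY34 : Y < 3 / 4 := by
    by_contra h
    push Not at h
    have := excess_hi hb hbx.le hx0 hx h hY
    linarith
  have hGY : G b ≤ G Y := by
    rcases le_or_gt (1 / 4) Y with h | h
    · exact (G_le_one hb (by linarith)).trans (G_ge_one h hY34.le)
    · exact G_mono_half hb (by linarith) (by linarith)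
  have hb0 : b = 0 := by
    by_contra hne
    have hbpos : 0 < b := lt_of_le_of_ne hb (Ne.symm hne)
    have := excess_pos hbpos hbx hxY hY hGY
    linarith
  refine ⟨hb0, ?_⟩
  subst hb0
  rw [G_zero] at hE
  obtain ⟨j, hj⟩ := G_attained hY0 hY34.le
  obtain ⟨q, hq0, hq⟩ := exists_root j hY0.le
  obtain ⟨r, hr0, hr⟩ := exists_root (j + 1) hx0.le
  have hr0' : 0 < r := by
    rcases eq_or_lt_of_le hr0 with h | h
    · exfalso
      rw [← h] at hr
      simp at hr
      linarith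
    · exact h
  have hq0' : 0 < q := by
    rcases eq_or_lt_of_le hq0 with h | h
    · exfalso
      rw [← h] at hq
      simp at hq
      linarith
    · exact h
  have hGx := G_le (j + 1) hx0.le (by linarith : x ≤ 1)
  rw [← hr, a_pow (j + 1) hr0, hr] at hGx
  push_cast at hGx
  rw [← hq, a_pow j hq0, hq] at hj
  have hr2 : r ^ (j + 2) = x := hr
  have h1 : x * (((j : ℝ) + 1) * q ^ j) + Y ^ 2 ≤ Y * G x := by
    rw [hj] at hE
    linarith
  have h2 : Y * G x ≤ Y * (((j : ℝ) + 1 + 1) * r ^ (j + 1)) := mul_le_mul_of_nonneg_left hGx hY0.le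
  have hqj : 0 < q ^ j := by positivity
  have hgap := pow_gap j hq0 hr0
  have h3 : q ^ (j + 2) + ((j : ℝ) + 1) * r ^ (j + 2) - ((j : ℝ) + 2) * r ^ (j + 1) * q ≤ 0 := by
    have h4 : q ^ j * (q ^ (j + 2) + ((j : ℝ) + 1) * r ^ (j + 2) - ((j : ℝ) + 2) * r ^ (j + 1) * q) ≤ q ^ j * 0 := by
      have e1 : Y ^ 2 = q ^ j * q ^ (j + 2) := by
        rw [← hq]
        ring
      have e2 : Y = q ^ j * q := by rw [← hq, pow_succ]
      have e3 : Y * (((j : ℝ) + 1 + 1) * r ^ (j + 1)) = q ^ j * (((j : ℝ) + 2) * r ^ (j + 1) * q) := by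
        rw [e2]
        ring
      rw [e1] at h1
      rw [e3] at h2
      rw [← hr2] at h1
      rw [← hr2] at h2
      nlinarith
    exact le_of_mul_le_mul_left h4 hqj
  have hqr : q = r := by
    have h5 : ((j : ℝ) + 1) * r ^ j * (q - r) ^ 2 ≤ 0 := hgap.trans h3
    have h6 : 0 < ((j : ℝ) + 1) * r ^ j := by positivity
    have h7 : (q - r) ^ 2 ≤ 0 := by
      by_contra h
      push Not at h
      have := mul_pos h6 h
      linarith
    have h8 : q - r = 0 := by
      have := le_antisymm h7 (sq_nonneg _)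
      exact pow_eq_zero_iff (two_ne_zero) |>.1 this
    linarith
  subst hqr
  have h9 : ((j : ℝ) + 2) * q ^ (j + 1) ≤ G x := by
    have h10 : q ^ (j + 1) * (((j : ℝ) + 2) * q ^ (j + 1)) ≤ q ^ (j + 1) * G x := by
      have e1 : x * (((j : ℝ) + 1) * q ^ j) + Y ^ 2 = q ^ (j + 1) * (((j : ℝ) + 2) * q ^ (j + 1)) := by
        rw [← hr2, ← hq]
        ring
      rw [← hq] at h1 e1
      linarith
    exact le_of_mul_le_mul_left h10 (by positivity)
  have h9' : ((j : ℝ) + 2) * q ^ (j + 1) ≤ G (q ^ (j + 2)) := by rw [hr2]; exact h9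
  have hx1 : q ^ (j + 2) ≤ 1 := by rw [hr2]; linarith
  refine ⟨j + 1, by omega, q, zone_lo j hr0' hx1 h9', zone_up j hr0' hx1 h9', hr2.symm, hq.symm, ?_⟩
  push_cast
  have e : (j : ℝ) + 1 + 1 = (j : ℝ) + 2 := by ring
  rw [e]
  rw [e] at hGx
  exact le_antisymm hGx h9

end Pool.Agent.H14.ZN
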